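import Pool.Agent.W2helper55.CRP.Final

/-!
# Not every Church-Rosser language is a programmed language without erasing rules

There is a Church-Rosser language `L` (over an alphabet with seven letters) such that
`L ∖ {λ}` is generated by no programmed grammar without erasing rules and with appearance
checking, over whatever terminal alphabet containing the alphabet of `L`.

The language. The letters are the padding letter `c`, the two opening letters `op b`, the
companion `p`, the companion `q` and the two closing letters `cl b`; an opening bracket of kind `b`
is `op b, p`, a closing one is `q, cl b`. With the runs of `c` deleted, every word of `L` is a
properly nested bracket word with two kinds of brackets; and the runs of `c` in a word of `L` have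
the lengths `m`, `m + 2`, `m + 3`, `m + 4`, ... for some `m`, from left to right. So the
number of letters `c` pins each other letter to its position. In a derivation of a programmed
grammar without erasing rules the bracket letters below a nonterminal of a sentential form are
then determined by the nonterminal, and a counting argument on bracket words whose nesting is
a deep binary tree gives more such words than the grammar can keep apart.
-/

set_option autoImplicit false

namespace Pool.Agent.Results.MP_d63846_lc.NotProgrammed

open Pool.Agent.W2helper55.CRP

theorem result :
    ∃ (S : Type) (L : Set (List S)), Finite S ∧ IsCRL L ∧
      ∀ (T : Type) (ι : S → T), Function.Injective ι →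
        ∀ G : PGram T, G.NonErasing →
          G.lang ≠ {z | ∃ w ∈ L, w ≠ [] ∧ z = w.map ι} :=
  ⟨Sg, LL, inferInstance, LL_CRL, fun T ι hι G hG => main T ι hι G hG⟩

end Pool.Agent.Results.MP_d63846_lc.NotProgrammed
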